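import Pool.Agent.Helper9.WS.Defs

/-!
Project WS, block WS-9: traces of the powers of a cyclic block matrix.
-/

open MvPolynomial Finset

namespace Pool.Agent.Helper9.WS

private theorem mprod_succ_h12 {I L : Type} [Fintype I] [DecidableEq I] [Field L]
    (B : ℕ → Matrix I I L) (r : ℕ) : mprod B (r + 1) = mprod (fun j => B (j + 1)) r * B 0 := by
  induction r with
  | zero =>
    simp only [mprod, mul_one, one_mul]
  | succ r ih =>
    calc mprod B (r + 1 + 1) = B (r + 1) * mprod B (r + 1) := rfl
      _ = B (r + 1) * (mprod (fun j => B (j + 1)) r * B 0) := by rw [ih]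
      _ = (B (r + 1) * mprod (fun j => B (j + 1)) r) * B 0 := by rw [mul_assoc]
      _ = mprod (fun j => B (j + 1)) (r + 1) * B 0 := rfl

private theorem trace_shift_h12 {I L : Type} [Fintype I] [DecidableEq I] [Field L]
    (B : ℕ → Matrix I I L) {r : ℕ} (hr : 0 < r) (hB : B r = B 0) :
    (mprod (fun j => B (j + 1)) r).trace = (mprod B r).trace := by
  obtain ⟨q, rfl⟩ : ∃ q, r = q + 1 := ⟨r - 1, by omega⟩
  have h1 : mprod (fun j => B (j + 1)) (q + 1) = B (q + 1) * mprod (fun j => B (j + 1)) q := rfl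
  rw [h1, hB, Matrix.trace_mul_comm, ← mprod_succ_h12]

private theorem per_mod_h12 {α : Type} {s : ℕ} (A : ℕ → α) (hA : ∀ i, A (i + s) = A i) (i : ℕ) :
    A (i % s) = A i := by
  have h1 : ∀ q m, A (m + s * q) = A m := by
    intro q
    induction q with
    | zero => intro m; rw [mul_zero, add_zero]
    | succ q ih => intro m; rw [mul_add, mul_one, ← add_assoc, hA, ih]
  conv_rhs => rw [← Nat.mod_add_div i s]
  rw [h1]

private theorem cyc_pow_h12 {I L : Type} [Fintype I] [DecidableEq I] [Field L] {s : ℕ}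
    (hs : 0 < s) (A : ℕ → Matrix I I L) (hA : ∀ i, A (i + s) = A i) (r : ℕ) (x y : Fin s × I) :
    ((cyc s A) ^ r) x y = if ((y.1 : ℕ) + r) % s = (x.1 : ℕ) then
      mprod (fun j => A ((y.1 : ℕ) + j)) r x.2 y.2 else 0 := by
  induction r generalizing x with
  | zero =>
    rw [pow_zero, add_zero, Nat.mod_eq_of_lt y.1.2, mprod]
    by_cases h : (y.1 : ℕ) = (x.1 : ℕ)
    · rw [if_pos h]
      have h1 : x.1 = y.1 := Fin.ext h.symm
      by_cases h2 : x.2 = y.2
      · rw [Prod.ext h1 h2, Matrix.one_apply_eq, Matrix.one_apply_eq]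
      · rw [Matrix.one_apply_ne h2, Matrix.one_apply_ne (fun h3 => h2 (by rw [h3]))]
    · rw [if_neg h, Matrix.one_apply_ne (fun h3 => h (by rw [h3]))]
  | succ r ih =>
    rw [pow_succ', Matrix.mul_apply, Fintype.sum_prod_type]
    set z : Fin s := ⟨((y.1 : ℕ) + r) % s, Nat.mod_lt _ hs⟩ with hz
    rw [Finset.sum_eq_single z]
    · have h1 : ∀ i : I, ((cyc s A) ^ r) (z, i) y = mprod (fun j => A ((y.1 : ℕ) + j)) r i y.2 := by
        intro i
        exact (ih (z, i)).trans (if_pos rfl)
      have h2 : (((y.1 : ℕ) + r) % s + 1) % s = ((y.1 : ℕ) + (r + 1)) % s := by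
        rw [Nat.mod_add_mod, add_assoc]
      by_cases h : ((y.1 : ℕ) + (r + 1)) % s = (x.1 : ℕ)
      · rw [if_pos h]
        have h3 : mprod (fun j => A ((y.1 : ℕ) + j)) (r + 1) =
            A ((y.1 : ℕ) + r) * mprod (fun j => A ((y.1 : ℕ) + j)) r := rfl
        rw [h3, Matrix.mul_apply]
        refine Finset.sum_congr rfl fun i _ => ?_
        rw [h1]
        have h4 : cyc s A x (z, i) = A ((y.1 : ℕ) + r) x.2 i := by
          unfold cyc
          rw [if_pos]
          · rw [hz]
            change A (((y.1 : ℕ) + r) % s) x.2 i = _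
            rw [per_mod_h12 A hA]
          · change (((y.1 : ℕ) + r) % s + 1) % s = (x.1 : ℕ)
            rw [h2, h]
        rw [h4]
      · rw [if_neg h]
        refine Finset.sum_eq_zero fun i _ => ?_
        have h4 : cyc s A x (z, i) = 0 := by
          unfold cyc
          rw [if_neg]
          change ¬ (((y.1 : ℕ) + r) % s + 1) % s = (x.1 : ℕ)
          rw [h2]
          exact h
        rw [h4, zero_mul]
    · intro w _ hw
      refine Finset.sum_eq_zero fun i _ => ?_
      rw [ih, if_neg, mul_zero]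
      intro h
      exact hw (Fin.ext h.symm)
    · intro h
      exact absurd (Finset.mem_univ _) h

theorem trace_cyc {I L : Type} [Fintype I] [DecidableEq I] [Field L] {s : ℕ} (hs : 0 < s)
    (A : ℕ → Matrix I I L) (hA : ∀ i, A (i + s) = A i) {r : ℕ} (hr : 0 < r) :
    ((cyc s A) ^ r).trace = if s ∣ r then (s : L) * (mprod A r).trace else 0 := by
  have h0 : ((cyc s A) ^ r).trace = ∑ i : Fin s, if ((i : ℕ) + r) % s = (i : ℕ) then
      (mprod (fun j => A ((i : ℕ) + j)) r).trace else 0 := by
    rw [Matrix.trace, Fintype.sum_prod_type]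
    refine Finset.sum_congr rfl fun i _ => ?_
    by_cases h : ((i : ℕ) + r) % s = (i : ℕ)
    · rw [if_pos h, Matrix.trace]
      refine Finset.sum_congr rfl fun j _ => ?_
      rw [Matrix.diag_apply, cyc_pow_h12 hs A hA, if_pos h, Matrix.diag_apply]
    · rw [if_neg h]
      refine Finset.sum_eq_zero fun j _ => ?_
      rw [Matrix.diag_apply, cyc_pow_h12 hs A hA, if_neg h]
  rw [h0]
  by_cases hd : s ∣ r
  · rw [if_pos hd]
    obtain ⟨q, hq⟩ := hd
    have hper : ∀ i, A (i + r) = A i := by
      intro i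
      rw [← per_mod_h12 A hA (i + r), ← per_mod_h12 A hA i, hq, Nat.add_mul_mod_self_left]
    have htr : ∀ i, (mprod (fun j => A (i + j)) r).trace = (mprod A r).trace := by
      intro i
      induction i with
      | zero => simp only [zero_add]
      | succ i ih =>
        have h1 := trace_shift_h12 (fun j => A (i + j)) hr (by rw [hper, add_zero])
        have h2 : (fun j => A (i + 1 + j)) = fun j => A (i + (j + 1)) := by
          funext j
          congr 1
          omega
        rw [h2]
        exact h1.trans ih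
    rw [Finset.sum_congr rfl (fun (i : Fin s) _ => by
      rw [if_pos (by rw [hq, Nat.add_mul_mod_self_left, Nat.mod_eq_of_lt i.2]), htr]),
      Finset.sum_const, Finset.card_univ, Fintype.card_fin, nsmul_eq_mul]
  · rw [if_neg hd]
    refine Finset.sum_eq_zero fun i _ => ?_
    rw [if_neg]
    intro h
    apply hd
    have h1 : ((i : ℕ) + r) % s = ((i : ℕ) + 0) % s := by
      rw [h, add_zero, Nat.mod_eq_of_lt i.2]
    exact (Nat.modEq_zero_iff_dvd).1 (Nat.ModEq.add_left_cancel' (i : ℕ) h1)

end Pool.Agent.Helper9.WS
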